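import Mathlib
import Pool.Agent.H.MP_3b2897_nt.C

set_option autoImplicit false

namespace Pool.Agent.Results.MP_3b2897_nt.Weak

open Finset Filter Topology Pool.Agent.H3b28

/-- The doubling orbit of the binary Champernowne constant has weak pair correlations. -/
theorem result (α : ℝ) (hα : α = ∑' n : ℕ, (n : ℝ) / 2 ^ (∑ m ∈ range (n + 1), Nat.size m))
    (x : ℕ → ℝ) (hx : ∀ n, x n = Int.fract (2 ^ n * α)) :
    ∃ β : ℝ, 0 < β ∧ β < 1 ∧ ∀ s : ℝ, 0 ≤ s → Tendsto (fun N : ℕ => (N : ℝ) ^ (β - 2) *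
      (((Icc 1 N ×ˢ Icc 1 N).filter fun p : ℕ × ℕ => p.1 ≠ p.2 ∧
        |x p.1 - x p.2 - round (x p.1 - x p.2)| ≤ s * (N : ℝ) ^ (-β)).card : ℝ)) atTop (𝓝 (2 * s)) := by
  refine ⟨1 / 12, by norm_num, by norm_num, fun s hs => Metric.tendsto_nhds.mpr fun η hη => ?_⟩
  simp only [hx]
  obtain ⟨ε, e0, e1, e2⟩ : ∃ ε : ℝ, 0 < ε ∧ ε ≤ 1 ∧ ε * (2 * s + 7) < η := by
    refine ⟨min 1 (η / (2 * s + 8)), by positivity, min_le_left _ _, ?_⟩
    have := (le_div_iff₀ (by positivity)).mp (min_le_right 1 (η / (2 * s + 8)))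
    have : 0 < min 1 (η / (2 * s + 8)) := by positivity
    linarith
  have t1 := ((tendsto_rpow_neg_atTop (show (0 : ℝ) < 1 / 12 by norm_num)).comp
    tendsto_natCast_atTop_atTop).const_mul s
  have t2 := (tendsto_rpow_neg_atTop (show (0 : ℝ) < 11 / 12 by norm_num)).comp
    tendsto_natCast_atTop_atTop
  rw [mul_zero] at t1
  filter_upwards [L2 hα ε e0, t1.eventually_le_const (show (0 : ℝ) < 1 / 2 by norm_num),
    t2.eventually_le_const e0, eventually_ge_atTop 1] with N ⟨K, B, hK, h1, h2, h3⟩ h4 h5 h6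
  have hN : (0 : ℝ) < N := by exact_mod_cast h6
  have hK' : (0 : ℝ) < K := by exact_mod_cast hK
  have hc : (Icc 1 N).card = N := by simp
  obtain ⟨a1, a2⟩ := pair_cnt (Icc 1 N) K hK B (fun l => 2 ^ l * α) ε (s * (N : ℝ) ^ (-(1 / 12) : ℝ)) e1
    (by positivity) h4 h1 (by rwa [hc]) _ rfl
  rw [hc] at a1 a2
  simp only [Function.comp] at h5
  have b1 : (N : ℝ) ^ (1 / 12 - 2 : ℝ) = N ^ (1 / 12 : ℝ) / N ^ 2 := by
    rw [Real.rpow_sub hN, Real.rpow_two]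
  have b2 : (N : ℝ) ^ (-(11 / 12) : ℝ) = N ^ (1 / 12 : ℝ) / N := by
    rw [← Real.rpow_sub_one hN.ne']; norm_num
  have b3 : (0 : ℝ) < N ^ (1 / 12 : ℝ) := by positivity
  rw [b2] at h5
  rw [b1, Real.dist_eq]
  generalize ((Finset.card _ : ℕ) : ℝ) = R at a1 a2 ⊢
  rw [Real.rpow_neg hN.le] at a1 a2
  generalize (N : ℝ) ^ (1 / 12 : ℝ) = u at *
  have c0 : 0 < u / N ^ 2 := by positivity
  have c1 := mul_le_mul_of_nonneg_left a1 c0.le
  have c2 := mul_le_mul_of_nonneg_left a2 c0.le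
  have c3 : u / N ^ 2 * ((2 * (s * u⁻¹) * K - 3) * ((1 - ε) * (N ^ 2 / K)) - N) =
      (2 * s - 3 * (u / K)) * (1 - ε) - u / N := by field_simp
  have c4 : u / N ^ 2 * ((2 * (s * u⁻¹) * K + 3) * ((1 + ε) * (N ^ 2 / K))) =
      (2 * s + 3 * (u / K)) * (1 + ε) := by field_simp
  have c5 : u / K ≤ ε := (div_le_iff₀ hK').mpr h3
  have c6 : 0 < u / K := by positivity
  rw [c3] at c1
  rw [c4] at c2
  rw [abs_lt]
  constructor <;> nlinarith

end Pool.Agent.Results.MP_3b2897_nt.Weak
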